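import Mathlib

set_option autoImplicit false

open MeasureTheory Set Topology
open scoped ContDiff NNReal

/-! # Complex cycles on a complex torus

A complex torus `M = E / Λ` (`E` a complex vector space with a Euclidean norm, `Λ` a lattice) is
a compact complex manifold. Subsets of `M` and differential forms on `M` are written as the
`Λ`-periodic ones on `E`. All definitions are for `k = 1`: two-forms, two-currents and curves. -/

namespace Pool.Agent.W581.Sullivan

section General

variable {E : Type*} [NormedAddCommGroup E] [NormedSpace ℂ E] [NormedSpace ℝ E]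

/-- The subset `A` of `E` is `Λ`-periodic: it is the preimage of a subset of the torus `E / Λ`. -/
def IsPeriodicSet (Λ A : Set E) : Prop := ∀ l ∈ Λ, ∀ z, z + l ∈ A ↔ z ∈ A

/-- `α` is a smooth real `p`-form on the torus `E / Λ`: a smooth `Λ`-periodic `p`-form on `E`. -/
def IsForm (Λ : Set E) {p : ℕ} (α : E → E [⋀^Fin p]→L[ℝ] ℝ) : Prop :=
  ContDiff ℝ ∞ α ∧ ∀ l ∈ Λ, ∀ z, α (z + l) = α z

/-- `c` is a `2`-current on the torus: a functional on the smooth two-forms that is linear
and continuous for the `C^∞` topology. -/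
structure IsCurrent (Λ : Set E) (c : (E → E [⋀^Fin 2]→L[ℝ] ℝ) → ℝ) : Prop where
  add : ∀ α β, IsForm Λ α → IsForm Λ β → c (α + β) = c α + c β
  smul : ∀ (r : ℝ) α, IsForm Λ α → c (r • α) = r * c α
  continuous : ∃ (N : ℕ) (C : ℝ), ∀ α, IsForm Λ α → ∀ B : ℝ,
    (∀ j ≤ N, ∀ z, ‖iteratedFDeriv ℝ j α z‖ ≤ B) → |c α| ≤ C * B

/-- `c (dβ) = 0` for every smooth one-form `β` on the torus. -/
def IsClosedCurrent (Λ : Set E) (c : (E → E [⋀^Fin 2]→L[ℝ] ℝ) → ℝ) : Prop :=
  ∀ β : E → E [⋀^Fin 1]→L[ℝ] ℝ, IsForm Λ β → c (extDeriv β) = 0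

/-- `c` lies in the closure, for the weak topology, of the convex cone generated by the Dirac
currents `α ↦ α_z (v)`, where `v` is in the convex cone generated by the `2`-vectors `e ∧ i e`
that represent complex lines with their complex orientation: for all finitely many forms and all
`ε > 0`, some finite nonnegative combination of the functionals `α ↦ α_z (e ∧ i e)` is
`ε`-close to `c` on each of these forms. -/
def IsInClosedCone (Λ : Set E) (c : (E → E [⋀^Fin 2]→L[ℝ] ℝ) → ℝ) : Prop :=
  ∀ (n : ℕ) (α : Fin n → E → E [⋀^Fin 2]→L[ℝ] ℝ), (∀ i, IsForm Λ (α i)) → ∀ ε > 0,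
    ∃ (m : ℕ) (a : Fin m → ℝ≥0) (z e : Fin m → E),
      ∀ i, |c (α i) - ∑ j, a j * α i (z j) ![e j, Complex.I • e j]| < ε

/-- `c` is a complex cycle on the torus `E / Λ` (with `k = 1`). -/
structure IsComplexCycle (Λ : Set E) (c : (E → E [⋀^Fin 2]→L[ℝ] ℝ) → ℝ) : Prop where
  current : IsCurrent Λ c
  closed : IsClosedCurrent Λ c
  cone : IsInClosedCone Λ c

/-- `V` is a closed complex analytic subset of the open subset `U` of the torus: near each
point of `U`, it is the set of common zeros of finitely many holomorphic functions. -/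
structure IsAnalyticIn (Λ U V : Set E) : Prop where
  subset : V ⊆ U
  periodic : IsPeriodicSet Λ V
  zeros : ∀ z ∈ U, ∃ W : Set E, IsOpen W ∧ z ∈ W ∧ ∃ (m : ℕ) (f : Fin m → E → ℂ),
    (∀ j, AnalyticOnNhd ℂ (f j) W) ∧ V ∩ W = {w ∈ W | ∀ j, f j w = 0}

/-- The regular points of the curve `V` in the complex surface `E` (`dim E = 2`): those near which
`V` is a complex submanifold of dimension one, the zero set of a holomorphic function with nonzero
differential. -/
def regularPoints (V : Set E) : Set E :=
  {z ∈ V | ∃ W : Set E, IsOpen W ∧ z ∈ W ∧ ∃ f : E → ℂ,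
    AnalyticOnNhd ℂ f W ∧ fderiv ℂ f z ≠ 0 ∧ V ∩ W = {w ∈ W | f w = 0}}

/-- `V` is an irreducible closed analytic subvariety of pure dimension one of the open set `U` of
the torus: a nonempty closed analytic subset whose one-dimensional regular points are dense and
which is not the union of two closed analytic subsets different from it. -/
structure IsIrreducibleCurve (Λ U V : Set E) : Prop where
  nonempty : V.Nonempty
  analytic : IsAnalyticIn Λ U V
  pure : V ⊆ closure (regularPoints V)
  irreducible : ∀ A B : Set E, IsAnalyticIn Λ U A → IsAnalyticIn Λ U B → V = A ∪ B →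
    V = A ∨ V = B

/-- `e` is a unit vector tangent to `V` at `z`: the velocity at `0` of a holomorphic disc
in `V` through `z`. -/
def IsUnitTangent (V : Set E) (z e : E) : Prop :=
  ‖e‖ = 1 ∧ ∃ γ : ℂ → E, (∀ᶠ t in 𝓝 0, DifferentiableAt ℂ γ t ∧ γ t ∈ V) ∧ γ 0 = z ∧
    deriv γ 0 = e

open Classical in
/-- The value of the two-form `α` on the oriented unit `2`-vector `e ∧ i e` of the tangent line of
`V` at a regular point `z`. (All unit vectors `e` of the complex line give the same value.) -/
noncomputable def tangentValue (V : Set E) (α : E → E [⋀^Fin 2]→L[ℝ] ℝ) (z : E) : ℝ :=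
  if h : ∃ e, IsUnitTangent V z e then α z ![h.choose, Complex.I • h.choose] else 0

variable [MeasurableSpace E] [BorelSpace E]

/-- The current of integration `[V]` over the regular points of the curve `V` in the torus: the
integral of `α` over the oriented surface of regular points, with respect to its area
(two-dimensional Hausdorff measure); `Q` is a fundamental domain of the lattice. -/
noncomputable def integrationCurrent (Q V : Set E) (α : E → E [⋀^Fin 2]→L[ℝ] ℝ) : ℝ :=
  ∫ z in regularPoints V ∩ Q, tangentValue V α z ∂(Measure.euclideanHausdorffMeasure 2)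

/-- On the open subset `U` of the torus the current `c` is an average of irreducible
subvarieties: for some measure `ν` on some σ-algebra on the set of irreducible closed analytic
curves of `U` one has `c α = ∫ [V] α dν(V)` for every smooth two-form `α` with compact support
in `U`. -/
def IsAverageOn (Λ Q U : Set E) (c : (E → E [⋀^Fin 2]→L[ℝ] ℝ) → ℝ) : Prop :=
  ∃ (_ : MeasurableSpace {V : Set E // IsIrreducibleCurve Λ U V})
    (ν : Measure {V : Set E // IsIrreducibleCurve Λ U V}),
    ∀ α : E → E [⋀^Fin 2]→L[ℝ] ℝ, IsForm Λ α → tsupport α ⊆ U →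
      Integrable (fun V => integrationCurrent Q V.1 α) ν ∧
        c α = ∫ V, integrationCurrent Q V.1 α ∂ν

end General

/-- The complex vector space `ℂ²` with its Hermitian norm. -/
abbrev C2 : Type := EuclideanSpace ℂ (Fin 2)

/-- The lattice `ℤ[i]²` in `ℂ²`. -/
def gaussLattice : Set C2 := {l | ∀ j, ∃ m n : ℤ, l j = m + n * Complex.I}

/-- The half-open unit cube `[0, 1)⁴` in `ℂ²`, a fundamental domain of the lattice `ℤ[i]²`. -/
def unitCube : Set C2 :=
  {z | ∀ j, (z j).re ∈ Ico (0 : ℝ) 1 ∧ (z j).im ∈ Ico (0 : ℝ) 1}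

end Pool.Agent.W581.Sullivan
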