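import Pool.Agent.W581.Sullivan.Defs
import Pool.Agent.W581.Cyc.Final

set_option autoImplicit false

open MeasureTheory Set Topology Filter
open scoped ContDiff NNReal ENNReal

namespace Pool.Agent.W581.Sullivan

theorem isPeriodic_iff (A : Set C2) : IsPeriodicSet gaussLattice A ↔ Cyc.IsPeriodicSet A := Iff.rfl

theorem isForm_iff {p : ℕ} (α : C2 → C2 [⋀^Fin p]→L[ℝ] ℝ) :
    IsForm gaussLattice α ↔ α ∈ Cyc.Form p := Iff.rfl

theorem isAnalyticIn_iff (U V : Set C2) : IsAnalyticIn gaussLattice U V ↔ Cyc.IsAnalyticIn U V :=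
  ⟨fun h => ⟨h.1, h.2, h.3⟩, fun h => ⟨h.1, h.2, h.3⟩⟩

theorem isIrreducible_iff (U V : Set C2) :
    IsIrreducibleCurve gaussLattice U V ↔ Cyc.IsIrreducibleCurve U V := by
  constructor
  · rintro ⟨h1, h2, h3, h4⟩
    exact ⟨h1, (isAnalyticIn_iff U V).1 h2, h3, fun A B hA hB =>
      h4 A B ((isAnalyticIn_iff U A).2 hA) ((isAnalyticIn_iff U B).2 hB)⟩
  · rintro ⟨h1, h2, h3, h4⟩
    exact ⟨h1, (isAnalyticIn_iff U V).2 h2, h3, fun A B hA hB =>
      h4 A B ((isAnalyticIn_iff U A).1 hA) ((isAnalyticIn_iff U B).1 hB)⟩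

theorem integrationCurrent_eq (V : Set C2) (α : C2 → C2 [⋀^Fin 2]→L[ℝ] ℝ) :
    integrationCurrent unitCube V α = Cyc.integrationCurrent V α := rfl

open Classical in
/-- the tropical current -/
noncomputable def trop (α : C2 → C2 [⋀^Fin 2]→L[ℝ] ℝ) : ℝ :=
  if h : α ∈ Cyc.Form 2 then Cyc.trop ⟨α, h⟩ else 0

theorem trop_eq {α : C2 → C2 [⋀^Fin 2]→L[ℝ] ℝ} (h : IsForm gaussLattice α) :
    trop α = Cyc.trop ⟨α, h⟩ := dif_pos (show α ∈ Cyc.Form 2 from h)

theorem extDeriv_isForm {β : C2 → C2 [⋀^Fin 1]→L[ℝ] ℝ} (h : IsForm gaussLattice β) :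
    IsForm gaussLattice (extDeriv β) := by
  constructor
  · have h1 : ContDiff ℝ ∞ (fderiv ℝ β) := h.1.fderiv_right (by simp)
    have h2 : extDeriv β = fun z => ContinuousAlternatingMap.alternatizeUncurryFinCLM ℝ C2 ℝ
      (fderiv ℝ β z) := rfl
    rw [h2]
    exact (ContinuousLinearMap.contDiff _).comp h1
  · intro l hl z
    have h1 : fderiv ℝ β (z + l) = fderiv ℝ β z := by
      have h2 : (fun w => β (w + l)) = β := funext fun w => h.2 l hl w
      rw [← fderiv_comp_add_right, h2]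
    show ContinuousAlternatingMap.alternatizeUncurryFin (fderiv ℝ β (z + l)) =
      ContinuousAlternatingMap.alternatizeUncurryFin (fderiv ℝ β z)
    rw [h1]

theorem trop_cycle : IsComplexCycle gaussLattice trop := by
  refine ⟨⟨?_, ?_, ?_⟩, ?_, ?_⟩
  · intro α β hα hβ
    have hab : IsForm gaussLattice (α + β) :=
      (Cyc.Form 2).add_mem (x := α) (y := β) hα hβ
    rw [trop_eq hα, trop_eq hβ, trop_eq hab, ← map_add]
    rfl
  · intro r α hα
    have hab : IsForm gaussLattice (r • α) := (Cyc.Form 2).smul_mem r (x := α) hα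
    rw [trop_eq hα, trop_eq hab, ← smul_eq_mul, ← map_smul]
    rfl
  · obtain ⟨N, C, h⟩ := Cyc.trop_isCurrent
    refine ⟨N, C, fun α hα B hB => ?_⟩
    rw [trop_eq hα]
    exact h ⟨α, hα⟩ B hB
  · intro β hβ
    have h := extDeriv_isForm hβ
    rw [trop_eq h]
    exact Cyc.trop_closed ⟨β, hβ⟩ ⟨extDeriv β, h⟩ fun z => rfl
  · intro n α hα ε hε
    have hcl := Cyc.trop_cone
    rw [mem_closure_iff] at hcl
    obtain ⟨_, hd1, d, hd, rfl⟩ := hcl
      {v | ∀ i : Fin n, |Cyc.trop ⟨α i, hα i⟩ - v ⟨α i, hα i⟩| < ε} (by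
        have : {v : Cyc.Form 2 → ℝ | ∀ i : Fin n, |Cyc.trop ⟨α i, hα i⟩ - v ⟨α i, hα i⟩| < ε} =
            ⋂ i : Fin n, {v | |Cyc.trop ⟨α i, hα i⟩ - v ⟨α i, hα i⟩| < ε} := by
          ext v; simp
        rw [this]
        refine isOpen_iInter_of_finite fun i => isOpen_lt ?_ continuous_const
        exact (continuous_const.sub (continuous_apply _)).abs) (by intro i; simpa using hε)
    -- d is a finite nonnegative combination of evaluations
    have key : ∀ d ∈ Submodule.span ℝ≥0 Cyc.diracCurrents,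
        ∃ (m : ℕ) (a : Fin m → ℝ≥0) (z e : Fin m → C2), ∀ β : Cyc.Form 2,
          d β = ∑ j, a j * β.1 (z j) ![e j, Complex.I • e j] := by
      intro d hd
      induction hd using Submodule.span_induction with
      | mem x hx =>
        obtain ⟨z, m, a, e, h⟩ := hx
        exact ⟨m, a, fun _ => z, e, h⟩
      | zero => exact ⟨0, fun _ => 0, fun _ => 0, fun _ => 0, fun β => by simp⟩
      | add x y _ _ hx hy =>
        obtain ⟨m, a, z, e, h⟩ := hx
        obtain ⟨m', a', z', e', h'⟩ := hy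
        refine ⟨m + m', Fin.append a a', Fin.append z z', Fin.append e e', fun β => ?_⟩
        rw [LinearMap.add_apply, h, h', Fin.sum_univ_add]
        simp
      | smul r x _ hx =>
        obtain ⟨m, a, z, e, h⟩ := hx
        refine ⟨m, fun j => r * a j, z, e, fun β => ?_⟩
        have : (r • x) β = (r : ℝ) * x β := rfl
        rw [this, h, Finset.mul_sum]
        refine Finset.sum_congr rfl fun j _ => ?_
        push_cast; ring
    obtain ⟨m, a, z, e, h⟩ := key d hd
    refine ⟨m, a, z, e, fun i => ?_⟩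
    have := hd1 i
    simp only [h] at this
    rw [trop_eq (hα i)]
    exact this

theorem not_average {U : Set C2} (hU : IsOpen U) (hUp : IsPeriodicSet gaussLattice U)
    (h0 : (0 : C2) ∈ U) : ¬ IsAverageOn gaussLattice unitCube U trop := by
  rintro ⟨mν, ν, hν⟩
  apply Cyc.not_average hU hUp h0
  have hset : (fun V : Set C2 => IsIrreducibleCurve gaussLattice U V) =
      fun V => Cyc.IsIrreducibleCurve U V := funext fun V => propext (isIrreducible_iff U V)
  let φ : {V : Set C2 // IsIrreducibleCurve gaussLattice U V} →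
      {V : Set C2 // Cyc.IsIrreducibleCurve U V} := fun V => ⟨V.1, (isIrreducible_iff U V.1).1 V.2⟩
  let ψ : {V : Set C2 // Cyc.IsIrreducibleCurve U V} →
      {V : Set C2 // IsIrreducibleCurve gaussLattice U V} :=
    fun V => ⟨V.1, (isIrreducible_iff U V.1).2 V.2⟩
  let m' : MeasurableSpace {V : Set C2 // Cyc.IsIrreducibleCurve U V} := mν.comap ψ
  have hφψ : ∀ V, φ (ψ V) = V := fun V => rfl
  have hψφ : ∀ V, ψ (φ V) = V := fun V => rfl
  have hφ : Measurable φ := by
    rintro s ⟨t, ht, rfl⟩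
    exact ht
  have hψ : Measurable ψ := comap_measurable ψ
  let e : {V : Set C2 // IsIrreducibleCurve gaussLattice U V} ≃ᵐ
      {V : Set C2 // Cyc.IsIrreducibleCurve U V} :=
    { toFun := φ, invFun := ψ, left_inv := hψφ, right_inv := hφψ,
      measurable_toFun := hφ, measurable_invFun := hψ }
  refine ⟨m', ν.map e, fun α hα => ?_⟩
  obtain ⟨h1, h2⟩ := hν α.1 α.2 hα
  have h3 : trop α.1 = Cyc.trop α := trop_eq α.2
  refine ⟨?_, ?_⟩
  · rw [integrable_map_equiv]
    exact h1
  · rw [integral_map_equiv, ← h3, h2]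
    rfl

end Pool.Agent.W581.Sullivan
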